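import Pool.Agent.H104R3.EG.Stmts2

set_option autoImplicit false

/-! Main induction of project EG. -/

namespace Pool.Agent.H104R3.EG

theorem main_real_mono {G : Type} [Group G] {m n : ℕ} {P Q : (G → G) → Prop} (hmn : m ≤ n)
    (hPQ : ∀ α, P α → Q α) (h : Real G m P) : Real G n Q := by
  obtain ⟨S, h1, h2⟩ := h
  exact ⟨S, h1.trans hmn, fun α hα => hPQ α (h2 α hα)⟩

theorem main_card_quot {G : Type} [Group G] [Finite G] (N : Subgroup G) (hN : N ≠ ⊥) :
    2 * Nat.card (G ⧸ N) ≤ Nat.card G := by
  have h1 := Subgroup.card_eq_card_quotient_mul_card_subgroup N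
  have h2 : 1 < Nat.card N := (Subgroup.one_lt_card_iff_ne_bot N).2 hN
  rw [h1, mul_comm]
  exact Nat.mul_le_mul_left _ h2

theorem main_exists_min {G : Type} [Group G] [Finite G] [Nontrivial G] :
    ∃ N : Subgroup G, MinNormal N := by
  classical
  have hex : ∃ n : ℕ, ∃ N : Subgroup G, N.Normal ∧ N ≠ ⊥ ∧ Nat.card N = n :=
    ⟨_, ⊤, inferInstance, top_ne_bot, rfl⟩
  obtain ⟨N, hN1, hN2, hN3⟩ := Nat.find_spec hex
  refine ⟨N, hN1, hN2, fun L hL hLN => ?_⟩
  by_cases hb : L = ⊥
  · exact Or.inl hb
  · right
    have h1 := Nat.find_min' hex ⟨L, hL, hb, rfl⟩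
    rw [← hN3] at h1
    exact Subgroup.eq_of_le_of_card_ge hLN h1

theorem taskMain : TaskMain := by
  intro genR extR secSub secQuot minPG decR na2 na1 incG
  intro s
  have key : ∀ n : ℕ, ∀ (G : Type) [Group G] [Finite G], Nat.card G = n → SecGen s G →
      Rig G ((360 + 42 * s) * Nat.card G) ∧
      ∀ (p : ℕ) (_ : p.Prime) (N : Subgroup G), MinNormal N → IsPGroup p N →
        Inc G N ((178 + 21 * s) * Nat.card G) := by
    intro n
    induction n using Nat.strong_induction_on with
    | _ n ih =>
    intro G _ _ hn hsec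
    have hsect : ∀ (M : Subgroup G) (K : Subgroup M) [K.Normal], K ≠ ⊥ →
        Rig (M ⧸ K) ((360 + 42 * s) * Nat.card (M ⧸ K)) ∧
        ∀ (p : ℕ) (_ : p.Prime) (N : Subgroup (M ⧸ K)), MinNormal N → IsPGroup p N →
          Inc (M ⧸ K) N ((178 + 21 * s) * Nat.card (M ⧸ K)) := by
      intro M K _ hK
      have h1 := main_card_quot K hK
      have h2 : Nat.card M ≤ Nat.card G := Nat.le_of_dvd Nat.card_pos (Subgroup.card_subgroup_dvd_card M)
      have h3 : 0 < Nat.card (M ⧸ K) := Nat.card_pos
      exact ih (Nat.card (M ⧸ K)) (by omega) (M ⧸ K) rfl (secQuot s M (secSub s G hsec M) K)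
    have hinc := incG s G hsec hsect
    refine ⟨?_, hinc⟩
    rcases subsingleton_or_nontrivial G with hG | hG
    · refine main_real_mono ?_ ?_ (genR G 1)
      · exact Nat.mul_le_mul_right _ (by omega)
      · intro α hα x
        rw [Subsingleton.elim x 1]
        exact hα
    · obtain ⟨N, hN⟩ := main_exists_min (G := G)
      have hNn : N.Normal := hN.1
      by_cases hab : NonAb N
      · obtain ⟨k, T, g, T0, hD⟩ := decR G N hN hab
        have hsect' : ∀ (M : Subgroup G) (K : Subgroup M) [K.Normal], K ≠ ⊥ →
            Rig (M ⧸ K) ((360 + 42 * s) * Nat.card (M ⧸ K)) := fun M K _ hK => (hsect M K hK).1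
        by_cases hk : 2 ≤ k
        · obtain ⟨m, hm1, hm2⟩ := na2 G N k T g T0 (360 + 42 * s) hN hk hD hsect'
          refine main_real_mono ?_ (fun α hα => hα) hm1
          have h1 : (28 + (360 + 42 * s)) * Nat.card G ≤ (2 * (360 + 42 * s)) * Nat.card G :=
            Nat.mul_le_mul_right _ (by omega)
          rw [mul_assoc] at h1
          omega
        · have hT : N = T0 := by
            obtain ⟨i, hi⟩ := hD.one
            have hk1 : k = 1 := by
              have := i.2
              omega
            subst hk1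
            have h1 : (⨆ j, T j) = T i := by
              apply le_antisymm
              · exact iSup_le fun j => by rw [Subsingleton.elim j i]
              · exact le_iSup T i
            rw [← hD.sup, h1, hD.conj i, hi]
            unfold cj
            ext x
            simp
          have hsimp : IsSimpleGroup N := by rw [hT]; exact hD.simple
          obtain ⟨m, hm1, hm2⟩ := na1 s G N (360 + 42 * s) hN hsimp hab hsec hsect'
          refine main_real_mono ?_ (fun α hα => hα) hm1
          have h1 : (20 + 14 * s + (360 + 42 * s)) * Nat.card G ≤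
              (2 * (360 + 42 * s)) * Nat.card G :=
            Nat.mul_le_mul_right _ (by omega)
          rw [mul_assoc 2] at h1
          omega
      · obtain ⟨p, hp, hpN⟩ := minPG G N hN hab
        have h1 := main_card_quot N hN.2.1
        have h3 : 0 < Nat.card (G ⧸ N) := Nat.card_pos
        have h4 := (ih (Nat.card (G ⧸ N)) (by omega) (G ⧸ N) rfl (secQuot s G hsec N)).1
        have h5 := extR G N _ _ h4 (hinc p hp N hN hpN)
        refine main_real_mono ?_ (fun α hα => hα) h5
        have h6 : (180 + 21 * s) * (2 * Nat.card (G ⧸ N)) ≤ (180 + 21 * s) * Nat.card G :=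
          Nat.mul_le_mul_left _ h1
        calc (360 + 42 * s) * Nat.card (G ⧸ N) + (178 + 21 * s) * Nat.card G + 2 * Nat.card G
            = (180 + 21 * s) * (2 * Nat.card (G ⧸ N)) + (180 + 21 * s) * Nat.card G := by ring
          _ ≤ (180 + 21 * s) * Nat.card G + (180 + 21 * s) * Nat.card G := by
              exact Nat.add_le_add_right h6 _
          _ = (360 + 42 * s) * Nat.card G := by ring
  intro G _ _ hsec
  exact (key (Nat.card G) G rfl hsec).1

end Pool.Agent.H104R3.EG
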